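import Pool.Agent.H76.SW.T

/-! Module U6 of the board stw_modules. -/

set_option autoImplicit false

namespace Pool.Agent.H86.STW

open Pool.Agent.H76.SW Relation

theorem u6_inv_inv {A : Type} (a : A × Bool) : inv (some (a.1, !a.2)) = some a := by
  obtain ⟨a, b⟩ := a
  cases b <;> rfl

theorem u6_inv {A : Type} (a : A × Bool) : inv (some a) = some (a.1, !a.2) := by
  obtain ⟨a, b⟩ := a
  rfl

theorem u6_pw_symm {A : Type} (w : List (A × Bool)) : Symm (pw w) := by
  rintro s l t ⟨a, ⟨h1, h2, h3⟩ | ⟨h1, h2, h3⟩⟩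
  · exact ⟨a, Or.inr ⟨by rw [h1, u6_inv], h2, h3⟩⟩
  · exact ⟨a, Or.inl ⟨by rw [h1, u6_inv_inv], h2, h3⟩⟩

theorem u6_ws_symm {A I : Type} {n : ℕ} (x y : I → Fin n) (w : I → List (A × Bool))
    (D : I → Prop) : Symm (ws x y w D) := by
  rintro u l v (⟨e, s, t, h1, h2, h3⟩ | ⟨h1, e, b, h2, h3⟩)
  · exact Or.inl ⟨e, t, s, h2, h1, u6_pw_symm _ _ _ _ h3⟩
  · exact Or.inr ⟨by rw [h1]; rfl, e, b, h2, h3.symm⟩

theorem u6_step {A V : Type} (E : V → A → V → Prop) (u v : V) (l : A × Bool) :
    Step E u l v ↔ (l.2 = true ∧ E u l.1 v) ∨ (l.2 = false ∧ E v l.1 u) := by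
  obtain ⟨a, b⟩ := l
  cases b <;> simp [Step]

theorem u6_canon {A I : Type} {n : ℕ} (x y : I → Fin n) (w : I → List (A × Bool))
    (D : I → Prop) (e : I) (i : ℕ) (a : A × Bool) (h : (w e)[i]? = some a) :
    Step (canon (ws x y w D)) (cl _ (Sum.inr (e, i))) a (cl _ (Sum.inr (e, i + 1))) := by
  rw [u6_step]
  obtain ⟨a, b⟩ := a
  cases b
  · right
    refine ⟨rfl, Sum.inr (e, i + 1), Sum.inr (e, i), rfl, rfl, ?_⟩
    exact Or.inl ⟨e, i + 1, i, rfl, rfl, (a, false), Or.inr ⟨rfl, rfl, h⟩⟩
  · left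
    refine ⟨rfl, Sum.inr (e, i), Sum.inr (e, i + 1), rfl, rfl, ?_⟩
    exact Or.inl ⟨e, i, i + 1, rfl, rfl, (a, true), Or.inl ⟨rfl, rfl, h⟩⟩

theorem u6_run {A I Q : Type} {n : ℕ} (x y : I → Fin n) (w : I → List (A × Bool))
    (D : I → Prop) (tr : Q → A × Bool → Q → Prop) (e : I) (v : List (A × Bool)) :
    ∀ (u : List (A × Bool)) (s s' : Q), w e = u ++ v → Run tr s v s' →
      Reach (canon (ws x y w D)) tr (cl _ (Sum.inr (e, u.length)), s)
        (cl _ (Sum.inr (e, (w e).length)), s') := by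
  induction v with
  | nil =>
    intro u s s' h hr
    have hs : s = s' := hr
    rw [h, List.append_nil, hs]
    exact ReflTransGen.refl
  | cons a v ih =>
    intro u s s' h hr
    obtain ⟨t, h1, h2⟩ := hr
    have h3 := ih (u ++ [a]) t s' (by rw [h]; simp) h2
    rw [List.length_append, List.length_singleton] at h3
    refine ReflTransGen.head ⟨a, ?_, h1⟩ h3
    apply u6_canon
    rw [h, List.getElem?_append_right le_rfl]
    simp

theorem u6_path {A V : Type} (E : V → A → V → Prop) {u v : V} {w : List (A × Bool)}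
    (h : Path E u w v) : ∃ f : ℕ → V, f 0 = u ∧ f w.length = v ∧
      ∀ i a, w[i]? = some a → Step E (f i) a (f (i + 1)) := by
  induction h with
  | nil u => exact ⟨fun _ => u, rfl, rfl, by simp⟩
  | cons u v t l w h1 h2 ih =>
    obtain ⟨f, f0, fl, fs⟩ := ih
    refine ⟨fun i => match i with
      | 0 => u
      | i + 1 => f i, rfl, ?_, ?_⟩
    · simpa using fl
    · intro i a ha
      cases i with
      | zero =>
        simp only [List.getElem?_cons_zero, Option.some.injEq] at ha
        subst ha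
        show Step E u l (f 0)
        rw [f0]
        exact h1
      | succ i =>
        rw [List.getElem?_cons_succ] at ha
        exact fs i a ha

theorem pf_U6 : U_u6_ws := by
  intro A I Q n x y w
  refine ⟨u6_ws_symm x y w _, ?_, ?_, ?_⟩
  · intro tr e s s' hr
    have h1 : cl (ws x y w (fun _ => True)) (Sum.inl (x e)) = cl _ (Sum.inr (e, 0)) :=
      Quot.sound (Or.inr ⟨rfl, e, false, Or.inr trivial, Or.inl ⟨rfl, rfl⟩⟩)
    have h2 : cl (ws x y w (fun _ => True)) (Sum.inl (y e)) =
        cl _ (Sum.inr (e, (w e).length)) :=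
      Quot.sound (Or.inr ⟨rfl, e, true, Or.inr trivial, Or.inl ⟨rfl, rfl⟩⟩)
    rw [h1, h2]
    exact u6_run x y w _ tr e (w e) [] s s' rfl hr
  · intro V E μ hp _
    have hf : ∀ e, ∃ f : ℕ → V, f 0 = μ (x e) ∧ f (w e).length = μ (y e) ∧
        ∀ i a, (w e)[i]? = some a → Step E (f i) a (f (i + 1)) := fun e => u6_path E (hp e)
    choose f f0 fl fs using hf
    let F : Fin n ⊕ (I × ℕ) → V := Sum.elim μ (fun p => f p.1 p.2)
    refine ⟨Quot.lift F ?_, fun i => rfl, ?_⟩
    · rintro u v (⟨e, s, t, h1, h2, a, ⟨h3, -, -⟩ | ⟨h3, -, -⟩⟩ | ⟨-, e, b, -, h3⟩)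
      · exact absurd h3 (by simp)
      · exact absurd h3 (by simp)
      · have key : F (Sum.inl (if b then y e else x e)) = F (Sum.inr (e, pe (w e) b)) := by
          cases b
          · exact (f0 e).symm
          · exact (fl e).symm
        rcases h3 with ⟨h4, h5⟩ | ⟨h4, h5⟩
        · rw [h4, h5, key]
        · rw [h4, h5, key]
    · rintro p a q ⟨u, v, rfl, rfl, ⟨e, s, t, h1, h2, a0, ⟨h3, h4, h5⟩ | ⟨h3, h4, h5⟩⟩ |
        ⟨h3, -⟩⟩
      · rw [h1, h2]
        show E (f e s) a (f e t)
        have := fs e s a0 h5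
        rw [← Option.some.inj h3, h4] at this
        simpa [Step] using this
      · rw [h1, h2]
        show E (f e s) a (f e t)
        have h6 := Option.some.inj h3
        have h7 : a = a0.1 := congrArg Prod.fst h6
        have h8 : true = !a0.2 := congrArg Prod.snd h6
        have h9 : a0.2 = false := by
          cases h : a0.2
          · rfl
          · rw [h] at h8
            exact absurd h8 (by decide)
        have := fs e t a0 h5
        rw [h4, u6_step, h9] at this
        rcases this with ⟨h, -⟩ | ⟨-, h⟩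
        · exact absurd h (by decide)
        · rw [h7]
          exact h
      · exact absurd h3 (by simp)
  · intro tr V E u v s s'
    constructor
    · intro h
      have : ∀ a b : V × Q, Reach E tr a b → ∃ w, Path E a.1 w b.1 ∧ Run tr a.2 w b.2 := by
        intro a b hab
        induction hab using ReflTransGen.head_induction_on with
        | refl => exact ⟨[], Path.nil _, rfl⟩
        | head h1 _ ih =>
          obtain ⟨l, h2, h3⟩ := h1
          obtain ⟨w, h4, h5⟩ := ih
          exact ⟨l :: w, Path.cons _ _ _ _ _ h2 h4, _, h3, h5⟩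
      exact this _ _ h
    · rintro ⟨w, hp, hr⟩
      induction hp generalizing s with
      | nil u =>
        have : s = s' := hr
        rw [this]
        exact ReflTransGen.refl
      | cons u v t l w h1 h2 ih =>
        obtain ⟨s1, h3, h4⟩ := hr
        exact ReflTransGen.head ⟨l, h1, h3⟩ (ih s1 h4)

end Pool.Agent.H86.STW
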