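import Pool.Agent.H76.SW.T

/-! Module A4 of the board stw_modules. -/

set_option autoImplicit false

namespace Pool.Agent.H86.STW

open Pool.Agent.H76.SW Relation

theorem pf_A4 (h1 : U_d6_small) : U_a4_trivial := by
  intro A P Q L k hk gs tr pos pp h
  choose c hc using h
  let b : Body A 0 := ⟨2, 0, Fin.elim0, Fin.elim0, Fin.elim0, fun i => i.elim0⟩
  have hholds : ∀ {V : Type} (E : V → A → V → Prop) (R : Fin 0 → V → V → Prop)
      (μ : Fin b.n → V), b.Holds E R μ := by
    intro V E R μ i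
    exact i.elim0
  have hsat : ∀ {V : Type} (E : V → A → V → Prop) (u v : V),
      (RQ.cq 0 b Fin.elim0 (0 : Fin 2) (1 : Fin 2)).Sat E u v := by
    intro V E u v
    refine ⟨fun i : Fin 2 => if i = 0 then u else v, ?_, ?_, ?_⟩
    · exact hholds _ _ _
    · simp
    · simp
  refine ⟨RQ.cq 0 b Fin.elim0 (0 : Fin 2) (1 : Fin 2), ?_, ?_, ?_, ?_, ?_, ?_⟩
  · refine ⟨h1 b.graph k ?_, fun j => j.elim0⟩
    show Fintype.card (Fin 2) ≤ k + 1
    rw [Fintype.card_fin]
    omega
  · exact ⟨fun i => i.elim0, fun j => j.elim0⟩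
  · show 1 + b.size + ∑ j : Fin 0, _ ≤ 3
    have : b.size = 2 := by
      show 0 + 2 + 0 + ∑ i : Fin 0, _ = 2
      simp
    rw [this]
    simp
  · refine ⟨∅, 0, 1, fun V E u v => ?_⟩
    constructor
    · intro _
      exact ⟨fun i : Fin 2 => if i = 0 then u else v, by simp, by simp, by simp⟩
    · intro _
      exact hsat E u v
  · exact hsat _ _ _
  · intro V E hh _ hRP
    refine ⟨fun a => hh (c a), ?_⟩
    have e1 : ∀ x : L ⊕ Bool, Sum.elim pos pp x = pp (Sum.elim c id x) := by
      rintro (x | x)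
      · exact hc x
      · rfl
    have e2 : ∀ x : L ⊕ Bool, Sum.elim (fun a => hh (c a)) hh x = hh (Sum.elim c id x) := by
      rintro (x | x) <;> rfl
    intro x y s s' hr
    rw [e1, e1] at hr
    rw [e2, e2]
    exact hRP _ _ _ _ hr

end Pool.Agent.H86.STW
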