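import Pool.Agent.H76.SW.T

/-! Module F3 of the board stw_modules. -/

set_option autoImplicit false

namespace Pool.Agent.H86.STW

open Pool.Agent.H76.SW Relation

/-- the strand of a normal form in the cut chain -/
theorem f3_strand {P Q S : Type} (ρ : P × Q → P × Q → Prop)
    (hρ : ∀ x y z, ρ x y → ρ y z → ρ x z) (hρr : ∀ x, ρ x x)
    (fz : ℕ → S → P) (lk : ℕ → S → S → Prop) (W : (ℕ × S) × Q → (ℕ × S) × Q → Prop)
    (hW : ∀ x y z, W x y → W y z → W x z) (c d n : ℕ) (hcd : c < d) (hdn : d ≤ n)
    (m p : ℕ → S) (s t : ℕ → Q)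
    (hnode : ∀ q l l' s s', (q ≤ c ∨ d ≤ q) → q ≤ n → ρ (fz q l, s) (fz q l', s') →
      W ((q, l), s) ((q, l'), s'))
    (hlink : ∀ q m p s t, (q + 1 ≤ c ∨ d ≤ q) → q < n → lk (q + 1) m p →
      ρ (fz q p, s) (fz (q + 1) m, t) → W ((q, p), s) ((q + 1, m), t))
    (hjump : ∀ s t, ρ (fz c (p (c + 1)), s) (fz d (m d), t) →
      W ((c, p (c + 1)), s) ((d, m d), t))
    (hnf : ∀ i, i < n → ρ (fz i (m i), t i) (fz i (p (i + 1)), s (i + 1)) ∧
        lk (i + 1) (m (i + 1)) (p (i + 1)) ∧
        ρ (fz i (p (i + 1)), s (i + 1)) (fz (i + 1) (m (i + 1)), t (i + 1)))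
    (l' : S) (s' : Q) (hend : ρ (fz n (m n), t n) (fz n l', s')) :
    W ((0, m 0), t 0) ((n, l'), s') := by
  have hA : ∀ q, q ≤ c → W ((0, m 0), t 0) ((q, m q), t q) := by
    intro q
    induction q with
    | zero => intro _; exact hnode 0 _ _ _ _ (Or.inl (Nat.zero_le _)) (Nat.zero_le _) (hρr _)
    | succ q ih =>
      intro hq
      obtain ⟨h1, h2, h3⟩ := hnf q (by omega)
      exact hW _ _ _ (ih (by omega)) (hW _ _ _ (hnode q _ _ _ _ (Or.inl (by omega)) (by omega) h1)
        (hlink q _ _ _ _ (Or.inl hq) (by omega) h2 h3))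
  have hB : ∀ q', c + 1 ≤ q' → q' ≤ n →
      ρ (fz (c + 1) (m (c + 1)), t (c + 1)) (fz q' (m q'), t q') := by
    intro q' hq'
    induction q', hq' using Nat.le_induction with
    | base => intro _; exact hρr _
    | succ q' hq' ih =>
      intro hn
      obtain ⟨h1, h2, h3⟩ := hnf q' (by omega)
      exact hρ _ _ _ (ih (by omega)) (hρ _ _ _ h1 h3)
  obtain ⟨h1, h2, h3⟩ := hnf c (by omega)
  have hJ : W ((0, m 0), t 0) ((d, m d), t d) :=
    hW _ _ _ (hA c le_rfl) (hW _ _ _ (hnode c _ _ _ _ (Or.inl le_rfl) (by omega) h1)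
      (hjump _ _ (hρ _ _ _ h3 (hB d (by omega) hdn))))
  have hC : ∀ q, d ≤ q → q ≤ n → W ((0, m 0), t 0) ((q, m q), t q) := by
    intro q hq
    induction q, hq using Nat.le_induction with
    | base => intro _; exact hJ
    | succ q hq ih =>
      intro hn
      obtain ⟨h1, h2, h3⟩ := hnf q (by omega)
      exact hW _ _ _ (ih (by omega)) (hW _ _ _ (hnode q _ _ _ _ (Or.inr hq) (by omega) h1)
        (hlink q _ _ _ _ (Or.inr hq) (by omega) h2 h3))
  exact hW _ _ _ (hC n hdn le_rfl) (hnode n _ _ _ _ (Or.inr hdn) le_rfl hend)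

open Classical in
/-- remove the bags `z q` with `c < q < d` -/
noncomputable def cut {P : Type} {κ : ℕ} (F : FS P κ) (z : ℕ → F.N) (c d : ℕ)
    (h0 : ∀ q, c < q → q < d → z c ≠ z q) (hr : F.rk (z c) < F.rk (z d)) : FS P κ where
  N := {x : F.N // ∀ q, c < q → q < d → x ≠ z q}
  fin := by
    have := F.fin
    exact Fintype.ofFinite _
  par x := if x.1 = z d then some ⟨z c, h0⟩ else (F.par x.1).bind fun y =>
    if h : ∀ q, c < q → q < d → y ≠ z q then some ⟨y, h⟩ else none
  rk x := F.rk x.1
  hrk := by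
    intro x y h
    split_ifs at h with h1
    · rw [← Option.some.inj h, h1]
      exact hr
    · rw [Option.bind_eq_some_iff] at h
      obtain ⟨y', h2, h3⟩ := h
      split_ifs at h3 with h4
      rw [← Option.some.inj h3]
      exact F.hrk _ _ h2
  f x := F.f x.1
  lk x := if x.1 = z d then F.lk (z (c + 1)) else F.lk x.1
  inj := by
    intro x l l' m m' h1 h2
    split_ifs at h1 h2
    · exact F.inj _ _ _ _ _ h1 h2
    · exact F.inj _ _ _ _ _ h1 h2
  nf := by
    intro x
    split_ifs
    · exact F.nf _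
    · exact F.nf _

open Classical in
theorem cut_par {P : Type} {κ : ℕ} (F : FS P κ) (z : ℕ → F.N) (c d : ℕ)
    (h0 : ∀ q, c < q → q < d → z c ≠ z q) (hr : F.rk (z c) < F.rk (z d))
    (x y : {x : F.N // ∀ q, c < q → q < d → x ≠ z q}) :
    (cut F z c d h0 hr).par x = some y ↔
      (x.1 = z d ∧ y.1 = z c) ∨ (x.1 ≠ z d ∧ F.par x.1 = some y.1) := by
  show (if x.1 = z d then some ⟨z c, h0⟩ else (F.par x.1).bind fun y =>
    if h : ∀ q, c < q → q < d → y ≠ z q then some ⟨y, h⟩ else none) = some y ↔ _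
  by_cases h1 : x.1 = z d
  · rw [if_pos h1]
    constructor
    · intro h
      rw [← Option.some.inj h]
      exact Or.inl ⟨h1, rfl⟩
    · rintro (⟨-, h⟩ | ⟨h, -⟩)
      · congr 1
        exact Subtype.ext h.symm
      · exact absurd h1 h
  · rw [if_neg h1]
    constructor
    · intro h
      rw [Option.bind_eq_some_iff] at h
      obtain ⟨y', h2, h3⟩ := h
      split_ifs at h3 with h4
      rw [← Option.some.inj h3]
      exact Or.inr ⟨h1, h2⟩
    · rintro (⟨h, -⟩ | ⟨-, h⟩)
      · exact absurd h h1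
      · rw [h, Option.bind_some, dif_pos y.2]

open Classical in
theorem cut_lk {P : Type} {κ : ℕ} (F : FS P κ) (z : ℕ → F.N) (c d : ℕ)
    (h0 : ∀ q, c < q → q < d → z c ≠ z q) (hr : F.rk (z c) < F.rk (z d))
    (x : {x : F.N // ∀ q, c < q → q < d → x ≠ z q}) :
    (x.1 = z d → (cut F z c d h0 hr).lk x = F.lk (z (c + 1))) ∧
    (x.1 ≠ z d → (cut F z c d h0 hr).lk x = F.lk x.1) := by
  constructor
  · intro h
    show (if x.1 = z d then F.lk (z (c + 1)) else F.lk x.1) = _
    rw [if_pos h]
  · intro h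
    show (if x.1 = z d then F.lk (z (c + 1)) else F.lk x.1) = _
    rw [if_neg h]

/-- the chain relation with bounded levels -/
def CB {P Q : Type} {κ : ℕ} (ρ : P × Q → P × Q → Prop) (F : FS P κ) (z : ℕ → F.N) (n : ℕ)
    (a b : (ℕ × Fin κ) × Q) : Prop :=
  (ρ (F.f (z a.1.1) a.1.2, a.2) (F.f (z b.1.1) b.1.2, b.2) ∧
      (a.1.1 = b.1.1 ∨ (b.1.1 = a.1.1 + 1 ∧ F.lk (z b.1.1) b.1.2 a.1.2) ∨
        (a.1.1 = b.1.1 + 1 ∧ F.lk (z a.1.1) a.1.2 b.1.2))) ∧ a.1.1 ≤ n ∧ b.1.1 ≤ n

theorem cb_rho {P Q : Type} {κ : ℕ} (ρ : P × Q → P × Q → Prop)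
    (hρ : ∀ x y z, ρ x y → ρ y z → ρ x z) (hρr : ∀ x, ρ x x) (F : FS P κ) (z : ℕ → F.N) (n : ℕ)
    {a b : (ℕ × Fin κ) × Q} (h : ReflTransGen (CB ρ F z n) a b) :
    ρ (F.f (z a.1.1) a.1.2, a.2) (F.f (z b.1.1) b.1.2, b.2) := by
  induction h with
  | refl => exact hρr _
  | tail _ h1 ih => exact hρ _ _ _ ih h1.1.1

/-- patterns of the down strands -/
theorem f3_down {P Q : Type} {κ : ℕ} (h1 : U_f3a_down) (ρ : P × Q → P × Q → Prop)
    (hρ : ∀ x y z, ρ x y → ρ y z → ρ x z) (hρr : ∀ x, ρ x x) (F : FS P κ) (z : ℕ → F.N) (n : ℕ)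
    (la : Fin κ) (i : (Fin κ × Q) × (Fin κ × Q)) :
    ∃ σ : ℕ → Fin κ, ReflTransGen (CB ρ F z n) ((0, i.1.1), i.1.2) ((n, i.2.1), i.2.2) →
      ∃ (m p : ℕ → Fin κ) (s t : ℕ → Q), (∀ q, m q = σ q) ∧ m 0 = i.1.1 ∧ t 0 = i.1.2 ∧
        (∀ q, q < n → ρ (F.f (z q) (m q), t q) (F.f (z q) (p (q + 1)), s (q + 1)) ∧
          F.lk (z (q + 1)) (m (q + 1)) (p (q + 1)) ∧
          ρ (F.f (z q) (p (q + 1)), s (q + 1)) (F.f (z (q + 1)) (m (q + 1)), t (q + 1))) ∧
        ρ (F.f (z n) (m n), t n) (F.f (z n) i.2.1, i.2.2) := by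
  by_cases h : ReflTransGen (CB ρ F z n) ((0, i.1.1), i.1.2) ((n, i.2.1), i.2.2)
  · obtain ⟨m, p, s, t, a1, a2, a3, a4⟩ := h1 ρ hρ hρr (fun q => F.f (z q))
      (fun q => F.lk (z q)) i.1.1 i.1.2 n i.2.1 i.2.2 (ReflTransGen.mono (fun a b hab => hab.1) _ _ h)
    exact ⟨m, fun _ => ⟨m, p, s, t, fun _ => rfl, a1, a2, a3, a4⟩⟩
  · exact ⟨fun _ => la, fun h' => absurd h' h⟩

/-- patterns of the up strands -/
theorem f3_up {P Q : Type} {κ : ℕ} (h1 : U_f3a_down) (ρ : P × Q → P × Q → Prop)
    (hρ : ∀ x y z, ρ x y → ρ y z → ρ x z) (hρr : ∀ x, ρ x x) (F : FS P κ) (z : ℕ → F.N) (n : ℕ)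
    (la : Fin κ) (i : (Fin κ × Q) × (Fin κ × Q)) :
    ∃ σ : ℕ → Fin κ, ReflTransGen (CB ρ F z n) ((n, i.1.1), i.1.2) ((0, i.2.1), i.2.2) →
      ∃ (m p : ℕ → Fin κ) (s t : ℕ → Q), (∀ q, q ≤ n + 1 → p (n + 1 - q) = σ q) ∧
        m 0 = i.1.1 ∧ t 0 = i.1.2 ∧
        (∀ q, q < n → ρ (F.f (z (n - q)) (m q), t q) (F.f (z (n - q)) (p (q + 1)), s (q + 1)) ∧
          F.lk (z (n - q)) (p (q + 1)) (m (q + 1)) ∧
          ρ (F.f (z (n - q)) (p (q + 1)), s (q + 1))
            (F.f (z (n - (q + 1))) (m (q + 1)), t (q + 1))) ∧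
        ρ (F.f (z (n - n)) (m n), t n) (F.f (z (n - n)) i.2.1, i.2.2) := by
  by_cases h : ReflTransGen (CB ρ F z n) ((n, i.1.1), i.1.2) ((0, i.2.1), i.2.2)
  · have hrev : ReflTransGen (fun a b : (ℕ × Fin κ) × Q =>
        ρ (F.f (z (n - a.1.1)) a.1.2, a.2) (F.f (z (n - b.1.1)) b.1.2, b.2) ∧
        (a.1.1 = b.1.1 ∨ (b.1.1 = a.1.1 + 1 ∧ F.lk (z (n + 1 - b.1.1)) a.1.2 b.1.2) ∨
        (a.1.1 = b.1.1 + 1 ∧ F.lk (z (n + 1 - a.1.1)) b.1.2 a.1.2)))
        ((0, i.1.1), i.1.2) ((n, i.2.1), i.2.2) := by
      have key := ReflTransGen.lift (p := fun a b : (ℕ × Fin κ) × Q =>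
        ρ (F.f (z (n - a.1.1)) a.1.2, a.2) (F.f (z (n - b.1.1)) b.1.2, b.2) ∧
        (a.1.1 = b.1.1 ∨ (b.1.1 = a.1.1 + 1 ∧ F.lk (z (n + 1 - b.1.1)) a.1.2 b.1.2) ∨
        (a.1.1 = b.1.1 + 1 ∧ F.lk (z (n + 1 - a.1.1)) b.1.2 a.1.2)))
        (fun a : (ℕ × Fin κ) × Q => ((n - a.1.1, a.1.2), a.2)) ?_ _ _ h
      · simp only [Function.onFun, Nat.sub_self, Nat.sub_zero] at key
        exact key
      · rintro ⟨⟨qa, sa⟩, ta⟩ ⟨⟨qb, sb⟩, tb⟩ ⟨⟨hab, hor⟩, ha, hb⟩
        simp only [Function.onFun] at hab hor ha hb ⊢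
        rw [Nat.sub_sub_self ha, Nat.sub_sub_self hb]
        refine ⟨hab, ?_⟩
        rcases hor with hor | ⟨hor, hlk⟩ | ⟨hor, hlk⟩
        · left; rw [hor]
        · right; right
          refine ⟨by omega, ?_⟩
          rw [show n + 1 - (n - qa) = qb by omega]
          exact hlk
        · right; left
          refine ⟨by omega, ?_⟩
          rw [show n + 1 - (n - qb) = qa by omega]
          exact hlk
    obtain ⟨m, p, s, t, a1, a2, a3, a4⟩ := h1 ρ hρ hρr (fun q => F.f (z (n - q)))
      (fun q m p => F.lk (z (n + 1 - q)) p m) i.1.1 i.1.2 n i.2.1 i.2.2 hrev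
    refine ⟨fun q => p (n + 1 - q), fun _ => ⟨m, p, s, t, fun _ _ => rfl, a1, a2, ?_, a4⟩⟩
    intro q hq
    obtain ⟨b1, b2, b3⟩ := a3 q hq
    rw [Nat.add_sub_add_right] at b2
    exact ⟨b1, b2, b3⟩
  · exact ⟨fun _ => la, fun h' => absurd h' h⟩

theorem pf_F3 (h1 : U_f3a_down) : U_f3_chain := by
  classical
  intro P Q J _ κ ρ hρ hρr g ja jb la lb F mk hg hG L hL z hp hz hc
  -- patterns
  choose σd hσd using f3_down h1 ρ hρ hρr F z (L + 1) la
  choose σu hσu using f3_up h1 ρ hρ hρr F z (L + 1) la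
  let Dir : Type := Bool × ((Fin κ × Q) × (Fin κ × Q))
  let pat : Fin L → (Dir → Fin κ) := fun q x => if x.1 then σd x.2 (q + 1) else σu x.2 (q + 1)
  have hcard : Fintype.card (Dir → Fin κ) < Fintype.card (Fin L) := by
    have : Fintype.card (Dir → Fin κ) = κ ^ (2 * (κ * Fintype.card Q) ^ 2) := by
      rw [Fintype.card_fun, Fintype.card_fin]
      show κ ^ Fintype.card (Bool × ((Fin κ × Q) × (Fin κ × Q))) = _
      rw [Fintype.card_prod, Fintype.card_prod, Fintype.card_prod, Fintype.card_bool,
        Fintype.card_fin, sq]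
    rw [this, Fintype.card_fin]
    exact hL
  obtain ⟨i0, j0, hij, hpat⟩ := Fintype.exists_ne_map_eq_of_card_lt pat hcard
  obtain ⟨c, d, hcd, hdL, hpd, hpu⟩ : ∃ c d : ℕ, c + 1 < d ∧ d ≤ L ∧
      (∀ x, σd x (c + 1) = σd x d) ∧ ∀ x, σu x (c + 1) = σu x d := by
    have hd : ∀ x, σd x (i0 + 1) = σd x (j0 + 1) := fun x => by
      have := congrFun hpat (true, x)
      simpa [pat] using this
    have hu : ∀ x, σu x (i0 + 1) = σu x (j0 + 1) := fun x => by
      have := congrFun hpat (false, x)
      simpa [pat] using this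
    rcases lt_or_gt_of_ne (fun h => hij (Fin.ext h) : (i0 : ℕ) ≠ j0) with h | h
    · exact ⟨i0, j0 + 1, by omega, j0.2, hd, hu⟩
    · exact ⟨j0, i0 + 1, by omega, i0.2, fun x => (hd x).symm, fun x => (hu x).symm⟩
  clear hpat hij
  -- the bags of the chain are different
  have hrk : ∀ q q', q < q' → q' ≤ L + 1 → F.rk (z q) < F.rk (z q') := by
    intro q q' hq
    induction q', hq using Nat.le_induction with
    | base => intro h; exact F.hrk _ _ (hp q (by omega))
    | succ q' hq' ih => intro h; exact (ih (by omega)).trans (F.hrk _ _ (hp q' (by omega)))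
  have hzne : ∀ q q', q ≤ L + 1 → q' ≤ L + 1 → q ≠ q' → z q ≠ z q' := by
    intro q q' h2 h3 h4 h5
    rcases lt_or_gt_of_ne h4 with h | h
    · exact absurd (hrk q q' h h3) (by rw [h5]; exact lt_irrefl _)
    · exact absurd (hrk q' q h h2) (by rw [h5]; exact lt_irrefl _)
  have h0 : ∀ q, c < q → q < d → z c ≠ z q := fun q h2 h3 =>
    hzne c q (by omega) (by omega) (by omega)
  let F' : FS P κ := cut F z c d h0 (hrk c d (by omega) (by omega))
  have hmk : ∀ j, ∀ q, c < q → q < d → mk j ≠ z q := fun j q h2 h3 =>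
    hz q (by omega) (by omega) j
  let mk' : J → F'.N := fun j => ⟨mk j, hmk j⟩
  have hU : ∀ x : F.N, (∀ q, 1 ≤ q → q ≤ L → x ≠ z q) → ∀ q, c < q → q < d → x ≠ z q :=
    fun x h q h2 h3 => h q (by omega) (by omega)
  -- the bags of the cut chain
  have hbq : ∀ q, (q ≤ c ∨ d ≤ q) → q ≤ L + 1 → ∀ q', c < q' → q' < d → z q ≠ z q' := by
    intro q h2 h3 q' h4 h5
    exact hzne q q' h3 (by omega) (by omega)
  let bq : ℕ → F'.N := fun q => if h : ∀ q', c < q' → q' < d → z q ≠ z q' then ⟨z q, h⟩
    else ⟨z c, h0⟩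
  have hbq1 : ∀ q, (q ≤ c ∨ d ≤ q) → q ≤ L + 1 → (bq q).1 = z q := by
    intro q h2 h3
    show (if h : ∀ q', c < q' → q' < d → z q ≠ z q' then _ else _ : F'.N).1 = z q
    rw [dif_pos (hbq q h2 h3)]
  have hbqU : ∀ q, (q = 0 ∨ q = L + 1) → ∀ h, bq q = ⟨z q, h⟩ := by
    intro q h2 h
    exact Subtype.ext (hbq1 q (by omega) (by omega))
  have hf' : ∀ q, (q ≤ c ∨ d ≤ q) → q ≤ L + 1 → F'.f (bq q) = F.f (z q) := by
    intro q h2 h3
    show F.f (bq q).1 = _
    rw [hbq1 q h2 h3]
  -- links of the cut chain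
  have hpar1 : ∀ q, (q + 1 ≤ c ∨ d ≤ q) → q < L + 1 → F'.par (bq (q + 1)) = some (bq q) ∧
      F'.lk (bq (q + 1)) = F.lk (z (q + 1)) := by
    intro q h2 h3
    have e1 := hbq1 (q + 1) (by omega) (by omega)
    have e2 := hbq1 q (by omega) (by omega)
    have hne : (bq (q + 1)).1 ≠ z d := by
      rw [e1]
      exact hzne _ _ (by omega) (by omega) (by omega)
    constructor
    · refine (cut_par F z c d _ _ _ _).2 (Or.inr ⟨hne, ?_⟩)
      rw [e1, e2]
      exact hp q (by omega)
    · rw [(cut_lk F z c d _ _ (bq (q + 1))).2 hne, e1]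
  have hpar2 : F'.par (bq d) = some (bq c) ∧ F'.lk (bq d) = F.lk (z (c + 1)) := by
    have e1 := hbq1 d (by omega) (by omega)
    have e2 := hbq1 c (by omega) (by omega)
    exact ⟨(cut_par F z c d _ _ _ _).2 (Or.inl ⟨e1, e2⟩), (cut_lk F z c d _ _ (bq d)).1 e1⟩
  let G' := F'.Gen ρ (mk' ja, la) (mk' jb, lb)
  have hG't : ∀ x y w, G' x y → G' y w → G' x w := fun x y w h2 h3 => ReflTransGen.trans h2 h3
  -- the strands
  have hdown : ∀ l0 s0 l' s', ReflTransGen (CB ρ F z (L + 1)) ((0, l0), s0) ((L + 1, l'), s') →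
      G' ((bq 0, l0), s0) ((bq (L + 1), l'), s') := by
    intro l0 s0 l' s' h
    obtain ⟨m, p, s, t, a0, a1, a2, a3, a4⟩ := hσd ((l0, s0), (l', s')) h
    have := f3_strand ρ hρ hρr (fun q => F.f (z q)) (fun q => F.lk (z q))
      (fun x y => G' ((bq x.1.1, x.1.2), x.2) ((bq y.1.1, y.1.2), y.2))
      (fun x y w h2 h3 => hG't _ _ _ h2 h3) c d (L + 1) (by omega) (by omega) m p s t
      ?_ ?_ ?_ a3 l' s' a4
    · simp only [a1, a2] at this
      exact this
    · intro q l l' s s' h2 h3 h4
      refine ReflTransGen.single (FS.St.node (bq q) l l' s s' ?_)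
      rw [hf' q h2 h3]
      exact h4
    · intro q m p s t h2 h3 h4 h5
      obtain ⟨b1, b2⟩ := hpar1 q h2 h3
      refine ReflTransGen.single (FS.St.down (bq (q + 1)) (bq q) m p s t b1 ?_ ?_)
      · rw [b2]; exact h4
      · rw [hf' q (by omega) (by omega), hf' (q + 1) (by omega) (by omega)]
        exact h5
    · intro s t h2
      refine ReflTransGen.single (FS.St.down (bq d) (bq c) _ _ s t hpar2.1 ?_ ?_)
      · rw [hpar2.2, a0 d, ← hpd, ← a0]
        exact (a3 c (by omega)).2.1
      · rw [hf' c (by omega) (by omega), hf' d (by omega) (by omega)]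
        exact h2
  have hup : ∀ l0 s0 l' s', ReflTransGen (CB ρ F z (L + 1)) ((L + 1, l0), s0) ((0, l'), s') →
      G' ((bq (L + 1), l0), s0) ((bq 0, l'), s') := by
    intro l0 s0 l' s' h
    obtain ⟨m, p, s, t, a0, a1, a2, a3, a4⟩ := hσu ((l0, s0), (l', s')) h
    have := f3_strand ρ hρ hρr (fun q => F.f (z (L + 1 - q)))
      (fun q m p => F.lk (z (L + 1 + 1 - q)) p m)
      (fun x y => G' ((bq (L + 1 - x.1.1), x.1.2), x.2) ((bq (L + 1 - y.1.1), y.1.2), y.2))
      (fun x y w h2 h3 => hG't _ _ _ h2 h3) (L + 1 - d) (L + 1 - c) (L + 1) (by omega)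
      (by omega) m p s t ?_ ?_ ?_ ?_ l' s' a4
    · simp only [a1, a2] at this
      simpa using this
    · intro q l l' s s' h2 h3 h4
      refine ReflTransGen.single (FS.St.node (bq (L + 1 - q)) l l' s s' ?_)
      rw [hf' (L + 1 - q) (by omega) (by omega)]
      exact h4
    · intro q m p s t h2 h3 h4 h5
      obtain ⟨b1, b2⟩ := hpar1 (L + 1 - (q + 1)) (by omega) (by omega)
      rw [show L + 1 - (q + 1) + 1 = L + 1 - q by omega] at b1 b2
      refine ReflTransGen.single (FS.St.up (bq (L + 1 - q)) (bq (L + 1 - (q + 1))) p m s t b1 ?_ ?_)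
      · rw [b2]
        rw [Nat.add_sub_add_right] at h4
        exact h4
      · rw [hf' (L + 1 - q) (by omega) (by omega), hf' (L + 1 - (q + 1)) (by omega) (by omega)]
        exact h5
    · intro s t h2
      simp only at h2 ⊢
      rw [show L + 1 - (L + 1 - d) = d by omega, show L + 1 - (L + 1 - c) = c by omega] at h2 ⊢
      refine ReflTransGen.single (FS.St.up (bq d) (bq c) _ _ s t hpar2.1 ?_ ?_)
      · rw [hpar2.2]
        have e1 : p (L + 1 - d + 1) = p (L + 1 - c) := by
          have b1 := a0 d (by omega)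
          have b2 := a0 (c + 1) (by omega)
          rw [hpu, ← b1] at b2
          rw [show L + 1 - d + 1 = L + 1 + 1 - d by omega, ← b2]
          congr 1
          omega
        rw [e1]
        have b3 := (a3 (L - c) (by omega)).2.1
        rw [show L + 1 - (L - c) = c + 1 by omega, show L - c + 1 = L + 1 - c by omega] at b3
        exact b3
      · rw [hf' c (by omega) (by omega), hf' d (by omega) (by omega)]
        exact h2
    · intro i hi
      obtain ⟨b1, b2, b3⟩ := a3 i hi
      refine ⟨b1, ?_, b3⟩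
      rw [Nat.add_sub_add_right]
      exact b2
  -- walks
  have hwalk : ∀ (x0 : F'.N) (l0 : Fin κ) (s0 : Q) (b : (F.N × Fin κ) × Q),
      (∀ q, 1 ≤ q → q ≤ L → x0.1 ≠ z q) →
      F.Gen ρ (mk ja, la) (mk jb, lb) ((x0.1, l0), s0) b →
      (∀ h : (∀ q, 1 ≤ q → q ≤ L → b.1.1 ≠ z q),
        G' ((x0, l0), s0) ((⟨b.1.1, hU _ h⟩, b.1.2), b.2)) ∧
      ∀ q, 1 ≤ q → q ≤ L → b.1.1 = z q → ∃ q0 m0 t0, (q0 = 0 ∨ q0 = L + 1) ∧
        G' ((x0, l0), s0) ((bq q0, m0), t0) ∧
        ReflTransGen (CB ρ F z (L + 1)) ((q0, m0), t0) ((q, b.1.2), b.2) := by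
    intro x0 l0 s0 b hx0 hgen
    induction hgen with
    | refl =>
      refine ⟨fun _ => ReflTransGen.refl, fun q h2 h3 h4 => absurd h4 (hx0 q h2 h3)⟩
    | @tail u v _ hstep ih =>
      obtain ⟨ih1, ih2⟩ := ih
      -- the last position is in the region or not
      by_cases hv : ∀ q, 1 ≤ q → q ≤ L → v.1.1 ≠ z q
      · refine ⟨fun h => ?_, fun q h2 h3 h4 => absurd h4 (hv q h2 h3)⟩
        by_cases hu : ∀ q, 1 ≤ q → q ≤ L → u.1.1 ≠ z q
        · refine (ih1 hu).tail ?_
          cases hstep with
          | node x l l' s s' hh => exact FS.St.node (F := F') (ρ := ρ) (⟨x, hU _ hu⟩ : F'.N) l l' s s' hh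
          | up x y l l' s s' h2 h3 h4 =>
            have hne : x ≠ z d := hu d (by omega) hdL
            refine FS.St.up (F := F') (ρ := ρ) (⟨x, hU _ hu⟩ : F'.N) (⟨y, hU _ h⟩ : F'.N) l l' s s' ?_ ?_ h4
            · exact (cut_par F z c d _ _ _ _).2 (Or.inr ⟨hne, h2⟩)
            · rw [(cut_lk F z c d _ _ (⟨x, hU _ hu⟩ : F'.N)).2 hne]
              exact h3
          | down x y l l' s s' h2 h3 h4 =>
            have hne : x ≠ z d := hv d (by omega) hdL
            refine FS.St.down (F := F') (ρ := ρ) (⟨x, hU _ h⟩ : F'.N) (⟨y, hU _ hu⟩ : F'.N) l l' s s' ?_ ?_ h4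
            · exact (cut_par F z c d _ _ _ _).2 (Or.inr ⟨hne, h2⟩)
            · rw [(cut_lk F z c d _ _ (⟨x, hU _ h⟩ : F'.N)).2 hne]
              exact h3
          | ab s s' hh => exact FS.St.ab s s' hh
          | ba s s' hh => exact FS.St.ba s s' hh
        · push Not at hu
          obtain ⟨q, hq1, hq2, hq3⟩ := hu
          obtain ⟨q0, m0, t0, hq0, hg0, hcw⟩ := ih2 q hq1 hq2 hq3
          -- the step leads to level 0 or L + 1
          have hstep' : ∃ q1, (q1 = 0 ∨ q1 = L + 1) ∧ v.1.1 = z q1 ∧
              CB ρ F z (L + 1) ((q, u.1.2), u.2) ((q1, v.1.2), v.2) := by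
            cases hstep with
            | node x l l' s s' hh => exact absurd hq3 (hv q hq1 hq2)
            | up x y l l' s s' h2 h3 h4 =>
              simp only at hq3 hv
              have hpq := hp (q - 1) (by omega)
              rw [Nat.sub_add_cancel hq1] at hpq
              rw [hq3, hpq] at h2
              have hy : z (q - 1) = y := Option.some.inj h2
              have hq10 : q - 1 = 0 := by
                by_contra hne
                exact hv (q - 1) (by omega) (by omega) hy.symm
              refine ⟨q - 1, Or.inl hq10, hy.symm, ⟨?_, Or.inr (Or.inr ⟨?_, ?_⟩)⟩, ?_, ?_⟩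
              · simp only
                rw [hy, ← hq3]
                exact h4
              · simp only
                omega
              · simp only
                rw [← hq3]
                exact h3
              · simp only
                omega
              · simp only
                omega
            | down x y l l' s s' h2 h3 h4 =>
              simp only at hq3 hv
              rw [hq3] at h2
              have hx := hc q hq1 hq2 x h2
              have hqL : q = L := by
                by_contra hne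
                exact hv (q + 1) (by omega) (by omega) hx
              refine ⟨q + 1, Or.inr (by omega), hx, ⟨?_, Or.inr (Or.inl ⟨?_, ?_⟩)⟩, ?_, ?_⟩
              · simp only
                rw [← hx, ← hq3]
                exact h4
              · simp only
              · simp only
                rw [← hx]
                exact h3
              · simp only
                omega
              · simp only
                omega
            | ab s s' hh => exact absurd hq3 (hz q hq1 hq2 ja)
            | ba s s' hh => exact absurd hq3 (hz q hq1 hq2 jb)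
          obtain ⟨q1, hq10, hv1, hcb⟩ := hstep'
          have hcw' := hcw.tail hcb
          have hend : (⟨v.1.1, hU _ h⟩ : F'.N) = bq q1 := by
            apply Subtype.ext
            rw [hbq1 q1 (by omega) (by omega)]
            exact hv1
          rw [hend]
          refine hG't _ _ _ hg0 ?_
          have hrho := cb_rho ρ hρ hρr F z (L + 1) hcw'
          by_cases hsame : q0 = q1
          · subst hsame
            refine ReflTransGen.single (FS.St.node (bq q0) _ _ _ _ ?_)
            rw [hf' q0 (by omega) (by omega)]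
            exact hrho
          · rcases hq0 with rfl | rfl
            · rcases hq10 with rfl | rfl
              · exact absurd rfl hsame
              · exact hdown _ _ _ _ hcw'
            · rcases hq10 with rfl | rfl
              · exact hup _ _ _ _ hcw'
              · exact absurd rfl hsame
      · push Not at hv
        obtain ⟨q', hq'1, hq'2, hq'3⟩ := hv
        refine ⟨fun h => absurd hq'3 (h q' hq'1 hq'2), fun q hq1 hq2 hq3 => ?_⟩
        by_cases hu : ∀ q, 1 ≤ q → q ≤ L → u.1.1 ≠ z q
        · -- entering the region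
          have hstep' : ∃ q0, (q0 = 0 ∨ q0 = L + 1) ∧ u.1.1 = z q0 ∧
              CB ρ F z (L + 1) ((q0, u.1.2), u.2) ((q, v.1.2), v.2) := by
            cases hstep with
            | node x l l' s s' hh => exact absurd hq3 (hu q hq1 hq2)
            | up x y l l' s s' h2 h3 h4 =>
              simp only at hq3 hu
              rw [hq3] at h2
              have hx := hc q hq1 hq2 x h2
              have hqL : q = L := by
                by_contra hne
                exact hu (q + 1) (by omega) (by omega) hx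
              refine ⟨q + 1, Or.inr (by omega), hx, ⟨?_, Or.inr (Or.inr ⟨?_, ?_⟩)⟩, ?_, ?_⟩
              · simp only
                rw [← hx, ← hq3]
                exact h4
              · simp only
              · simp only
                rw [← hx]
                exact h3
              · simp only
                omega
              · simp only
                omega
            | down x y l l' s s' h2 h3 h4 =>
              simp only at hq3 hu
              have hpq := hp (q - 1) (by omega)
              rw [Nat.sub_add_cancel hq1] at hpq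
              rw [hq3, hpq] at h2
              have hy : z (q - 1) = y := Option.some.inj h2
              have hq10 : q - 1 = 0 := by
                by_contra hne
                exact hu (q - 1) (by omega) (by omega) hy.symm
              refine ⟨q - 1, Or.inl hq10, hy.symm, ⟨?_, Or.inr (Or.inl ⟨?_, ?_⟩)⟩, ?_, ?_⟩
              · simp only
                rw [hy, ← hq3]
                exact h4
              · simp only
                omega
              · simp only
                rw [← hq3]
                exact h3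
              · simp only
                omega
              · simp only
                omega
            | ab s s' hh => exact absurd hq3 (hz q hq1 hq2 jb)
            | ba s s' hh => exact absurd hq3 (hz q hq1 hq2 ja)
          obtain ⟨q0, hq0, hu1, hcb⟩ := hstep'
          refine ⟨q0, u.1.2, u.2, hq0, ?_, ReflTransGen.single hcb⟩
          have hend : (⟨u.1.1, hU _ hu⟩ : F'.N) = bq q0 := by
            apply Subtype.ext
            rw [hbq1 q0 (by omega) (by omega)]
            exact hu1
          rw [← hend]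
          exact ih1 hu
        · -- inside the region
          push Not at hu
          obtain ⟨r, hr1, hr2, hr3⟩ := hu
          obtain ⟨q0, m0, t0, hq0, hg0, hcw⟩ := ih2 r hr1 hr2 hr3
          refine ⟨q0, m0, t0, hq0, hg0, hcw.tail ?_⟩
          cases hstep with
          | node x l l' s s' hh =>
            simp only at hq3 hr3
            have hrq : r = q := by
              by_contra hne
              exact hzne r q (by omega) (by omega) hne (hr3.symm.trans hq3)
            subst hrq
            refine ⟨⟨?_, Or.inl rfl⟩, ?_, ?_⟩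
            · simp only
              rw [← hq3]
              exact hh
            · simp only
              omega
            · simp only
              omega
          | up x y l l' s s' h2 h3 h4 =>
            simp only at hq3 hr3
            rw [hq3] at h2
            have hx := hc q hq1 hq2 x h2
            have hrq : r = q + 1 := by
              by_contra hne
              exact hzne r (q + 1) (by omega) (by omega) hne (hr3.symm.trans hx)
            subst hrq
            refine ⟨⟨?_, Or.inr (Or.inr ⟨rfl, ?_⟩)⟩, ?_, ?_⟩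
            · simp only
              rw [← hr3, ← hq3]
              exact h4
            · simp only
              rw [← hr3]
              exact h3
            · simp only
              omega
            · simp only
              omega
          | down x y l l' s s' h2 h3 h4 =>
            simp only at hq3 hr3
            rw [hr3] at h2
            have hx := hc r hr1 hr2 x h2
            have hrq : q = r + 1 := by
              by_contra hne
              exact hzne q (r + 1) (by omega) (by omega) hne (hq3.symm.trans hx)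
            subst hrq
            refine ⟨⟨?_, Or.inr (Or.inl ⟨rfl, ?_⟩)⟩, ?_, ?_⟩
            · simp only
              rw [← hr3, ← hq3]
              exact h4
            · simp only
              rw [← hq3]
              exact h3
            · simp only
              omega
            · simp only
              omega
          | ab s s' hh => exact absurd hq3 (hz q hq1 hq2 jb)
          | ba s s' hh => exact absurd hq3 (hz q hq1 hq2 ja)
  refine ⟨F', ⟨mk', fun j => hg j, ?_⟩, ?_⟩
  · intro j j' l l' s s' h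
    exact (hwalk (mk' j) l s ((mk j', l'), s') (fun q h2 h3 => hz q h2 h3 j)
      (hG j j' l l' s s' h)).1 (fun q h2 h3 => hz q h2 h3 j')
  · let _ := F.fin
    show @Fintype.card F'.N F'.fin < @Fintype.card F.N F.fin
    have hlt : Fintype.card {x : F.N // ∀ q, c < q → q < d → x ≠ z q} < Fintype.card F.N := by
      apply Fintype.card_subtype_lt (x := z (c + 1))
      intro h
      exact h (c + 1) (by omega) hcd rfl
    refine lt_of_le_of_lt (le_of_eq ?_) hlt
    exact @Fintype.card_congr _ _ F'.fin _ (Equiv.refl _)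

end Pool.Agent.H86.STW
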